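import Mathlib
import Pool.Agent.Lib.MP_906bc3_co.DepthLoc

set_option autoImplicit false

namespace Pool.Agent.Results.MP_906bc3_co.BoundedDepthCographs

/-- For all s and j there is a constant c such that the feedback arc number is at most c times the
arc-disjoint cycle packing number on all digraphs whose underlying graph has no induced path on
four vertices plus s isolated vertices and no induced copy of the threshold graph on j clique
vertices and j independent vertices. -/
theorem result (s j : ℕ) : ∃ c : ℕ, ∀ (n : ℕ) (G : Digraph (Fin n)),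
    IsEmpty ((SimpleGraph.pathGraph 4).sum (⊥ : SimpleGraph (Fin s)) ↪g
      SimpleGraph.fromRel G.Adj) →
    IsEmpty ((SimpleGraph.fromRel fun a b : Fin j × Bool => a.2 = true ∧ a.1 ≤ b.1) ↪g
      SimpleGraph.fromRel G.Adj) →
    ∃ F : Finset (Fin n × Fin n),
      (∀ v : Fin n, ¬ Relation.TransGen (fun x y => G.Adj x y ∧ (x, y) ∉ F) v v) ∧
      ∃ k : ℕ, ∃ C : Fin k → Finset (Fin n × Fin n),
        (∀ i i' : Fin k, i ≠ i' → Disjoint (C i) (C i')) ∧
        (∀ i : Fin k,
          ∃ v : Fin n, Relation.TransGen (fun x y => G.Adj x y ∧ (x, y) ∈ C i) v v) ∧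
        F.card ≤ c * k := by
  obtain ⟨c, h⟩ := Pool.Agent.Lib.MP_906bc3_co.Dep.main4 s j
  exact ⟨c, fun _ G h1 h2 => h G.Adj h1 h2⟩

end Pool.Agent.Results.MP_906bc3_co.BoundedDepthCographs
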