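import Mathlib
import Pool.Agent.Lib.MP_906bc3_co.Shrub

set_option autoImplicit false

namespace Pool.Agent.Results.MP_906bc3_co.BoundedShrubDepth

/-- For all d and m there is a constant c such that the feedback arc number is at most c times the
arc-disjoint cycle packing number on all digraphs whose underlying graph has a tree-model of depth
d with m colours: the vertices have distinct addresses of length d and one of m colours, and
adjacency depends only on the two colours and the first place where the addresses differ. -/
theorem result (d m : ℕ) : ∃ c : ℕ, ∀ (n : ℕ) (G : Digraph (Fin n))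
    (p : Fin n → Fin d → ℕ) (col : Fin n → Fin m) (S : Fin m → Fin m → Fin d → Prop),
    Function.Injective p →
    (∀ (u v : Fin n) (i : Fin d), p u i ≠ p v i → (∀ i' : Fin d, i' < i → p u i' = p v i') →
      ((SimpleGraph.fromRel G.Adj).Adj u v ↔ S (col u) (col v) i)) →
    ∃ F : Finset (Fin n × Fin n),
      (∀ v : Fin n, ¬ Relation.TransGen (fun x y => G.Adj x y ∧ (x, y) ∉ F) v v) ∧
      ∃ k : ℕ, ∃ C : Fin k → Finset (Fin n × Fin n),
        (∀ i i' : Fin k, i ≠ i' → Disjoint (C i) (C i')) ∧
        (∀ i : Fin k,
          ∃ v : Fin n, Relation.TransGen (fun x y => G.Adj x y ∧ (x, y) ∈ C i) v v) ∧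
        F.card ≤ c * k := by
  obtain ⟨c, h⟩ := Pool.Agent.Lib.MP_906bc3_co.Shr.main d m
  exact ⟨c, fun _ G p col S h1 h2 => h G.Adj p col S h1 h2⟩

end Pool.Agent.Results.MP_906bc3_co.BoundedShrubDepth
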