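import Mathlib
import Pool.Agent.Lib.MP_906bc3_co.Dich

set_option autoImplicit false

namespace Pool.Agent.Results.MP_906bc3_co.ForbiddenInducedDichotomy

/-- Let M be a finite graph that is not a path on four vertices plus isolated vertices. Then the
feedback arc number is at most a constant times the arc-disjoint cycle packing number on all
digraphs whose underlying graph has no induced M if and only if M is an induced subgraph of a
path on three vertices plus isolated vertices. -/
theorem result (m : ℕ) (M : SimpleGraph (Fin m))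
    (hM : ∀ s : ℕ, IsEmpty (M ≃g (SimpleGraph.pathGraph 4).sum (⊥ : SimpleGraph (Fin s)))) :
    (∃ c : ℕ, ∀ (n : ℕ) (G : Digraph (Fin n)), IsEmpty (M ↪g SimpleGraph.fromRel G.Adj) →
      ∃ F : Finset (Fin n × Fin n),
        (∀ v : Fin n, ¬ Relation.TransGen (fun x y => G.Adj x y ∧ (x, y) ∉ F) v v) ∧
        ∃ k : ℕ, ∃ C : Fin k → Finset (Fin n × Fin n),
          (∀ i j : Fin k, i ≠ j → Disjoint (C i) (C j)) ∧
          (∀ i : Fin k,
            ∃ v : Fin n, Relation.TransGen (fun x y => G.Adj x y ∧ (x, y) ∈ C i) v v) ∧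
          F.card ≤ c * k) ↔
    ∃ s : ℕ, Nonempty (M ↪g (SimpleGraph.pathGraph 3).sum (⊥ : SimpleGraph (Fin s))) :=
  Pool.Agent.MP_906bc3_co.Neg.dich M hM

end Pool.Agent.Results.MP_906bc3_co.ForbiddenInducedDichotomy
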