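import Mathlib
import Pool.Agent.Lib.MP_906bc3_co.ChainMain

set_option autoImplicit false

namespace Pool.Agent.Results.MP_906bc3_co.NestedNeighbourhoods

/-- There is a constant c such that the feedback arc number is at most c times the arc-disjoint
cycle packing number on all digraphs whose underlying graph splits into a clique or independent
set X and an independent rest, with nested neighbourhoods of the vertices of X in the rest. -/
theorem result : ∃ c : ℕ, ∀ (n : ℕ) (G : Digraph (Fin n)) (X : Set (Fin n)) (a : Fin n → ℕ),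
    (∀ u v : Fin n, u ∉ X → v ∉ X → ¬ (SimpleGraph.fromRel G.Adj).Adj u v) →
    (∀ x x' y : Fin n, x ∈ X → x' ∈ X → y ∉ X → a x ≤ a x' →
      (SimpleGraph.fromRel G.Adj).Adj x' y → (SimpleGraph.fromRel G.Adj).Adj x y) →
    ((∀ x x' : Fin n, x ∈ X → x' ∈ X → x ≠ x' → (SimpleGraph.fromRel G.Adj).Adj x x') ∨
      ∀ x x' : Fin n, x ∈ X → x' ∈ X → ¬ (SimpleGraph.fromRel G.Adj).Adj x x') →
    ∃ F : Finset (Fin n × Fin n),
      (∀ v : Fin n, ¬ Relation.TransGen (fun x y => G.Adj x y ∧ (x, y) ∉ F) v v) ∧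
      ∃ k : ℕ, ∃ C : Fin k → Finset (Fin n × Fin n),
        (∀ i i' : Fin k, i ≠ i' → Disjoint (C i) (C i')) ∧
        (∀ i : Fin k,
          ∃ v : Fin n, Relation.TransGen (fun x y => G.Adj x y ∧ (x, y) ∈ C i) v v) ∧
        F.card ≤ c * k := by
  obtain ⟨c, h⟩ := Pool.Agent.Lib.MP_906bc3_co.Chn.main
  exact ⟨c, fun _ G X a h1 h2 h3 => h G.Adj (fun v => v ∈ X) a h1 h2 h3⟩

end Pool.Agent.Results.MP_906bc3_co.NestedNeighbourhoods
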